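import Pool.Agent.H33R3.Bom.Stmts2

/-! Task L of project H33-BOM, part 2 (helper779): Taylor coefficients from integral means. -/

set_option autoImplicit false

namespace Pool.Agent.H33R3.Bom

open Complex Metric Set Filter Topology

namespace TL

theorem one_sub_ne {z : ℂ} (hz : ‖z‖ < 1) : 1 - z ^ 2 ≠ 0 := by
  intro h
  have h1 : z ^ 2 = 1 := by linear_combination -h
  have h2 : ‖z‖ ^ 2 = 1 := by rw [← norm_pow, h1, norm_one]
  nlinarith [norm_nonneg z]

theorem re_kernel {z : ℂ} (hz : ‖z‖ < 1) :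
    ((1 + z ^ 2) / (1 - z ^ 2)).re = (1 - ‖z‖ ^ 4) * (1 / ‖1 - z ^ 2‖ ^ 2) := by
  have hne := one_sub_ne hz
  have hn : ‖1 - z ^ 2‖ ^ 2 ≠ 0 := pow_ne_zero 2 (norm_ne_zero_iff.2 hne)
  have e1 : ‖1 - z ^ 2‖ ^ 2 = normSq (1 - z ^ 2) := by rw [Complex.sq_norm]
  have e2 : ‖z‖ ^ 4 = normSq (z ^ 2) := by
    rw [← Complex.sq_norm, norm_pow]
    ring
  rw [Complex.div_re, e1, e2]
  have hn' : normSq (1 - z ^ 2) ≠ 0 := by rw [← e1]; exact hn
  rw [← add_div, eq_comm, mul_one_div]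
  congr 1
  rw [normSq_apply]
  simp only [add_re, sub_re, one_re, add_im, sub_im, one_im]
  ring

theorem mean_one {r : ℝ} (hr : 0 < r) (hr1 : r < 1) :
    (2 * Real.pi)⁻¹ * ∫ θ in (0 : ℝ)..(2 * Real.pi), 1 / ‖1 - circleMap 0 r θ ^ 2‖ ^ 2 =
      1 / (1 - r ^ 4) := by
  have hn : ∀ θ : ℝ, ‖circleMap 0 r θ‖ = r := by
    intro θ
    rw [norm_circleMap_zero, abs_of_pos hr]
  have hd : DifferentiableOn ℂ (fun z : ℂ => (1 + z ^ 2) / (1 - z ^ 2)) (ball 0 1) := by
    intro z hz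
    have hz' : ‖z‖ < 1 := by simpa using hz
    have a1 : DifferentiableAt ℂ (fun z : ℂ => 1 + z ^ 2) z := by fun_prop
    have a2 : DifferentiableAt ℂ (fun z : ℂ => 1 - z ^ 2) z := by fun_prop
    exact (a1.div a2 (one_sub_ne hz')).differentiableWithinAt
  have hdc : DiffContOnCl ℂ (fun z : ℂ => (1 + z ^ 2) / (1 - z ^ 2)) (ball 0 |r|) := by
    apply DifferentiableOn.diffContOnCl
    apply hd.mono
    rw [abs_of_pos hr]
    exact closure_ball_subset_closedBall.trans (closedBall_subset_ball hr1)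
  have h1 := hdc.circleAverage
  have h2 : Real.circleAverage (fun z : ℂ => (1 + z ^ 2) / (1 - z ^ 2)) 0 r = 1 := by
    rw [h1]
    simp
  rw [Real.circleAverage_def] at h2
  have hcont : Continuous fun θ : ℝ =>
      (1 + circleMap 0 r θ ^ 2) / (1 - circleMap 0 r θ ^ 2) := by
    apply Continuous.div
    · exact continuous_const.add ((continuous_circleMap 0 r).pow 2)
    · exact continuous_const.sub ((continuous_circleMap 0 r).pow 2)
    · intro θ
      exact one_sub_ne (by rw [hn]; exact hr1)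
  have h3 := congrArg Complex.re h2
  rw [Complex.one_re] at h3
  have h4 : (∫ θ in (0 : ℝ)..(2 * Real.pi),
      (1 + circleMap 0 r θ ^ 2) / (1 - circleMap 0 r θ ^ 2)).re =
      ∫ θ in (0 : ℝ)..(2 * Real.pi), ((1 + circleMap 0 r θ ^ 2) / (1 - circleMap 0 r θ ^ 2)).re :=
    (Complex.reCLM.intervalIntegral_comp_comm (hcont.intervalIntegrable _ _)).symm
  have h5 : (∫ θ in (0 : ℝ)..(2 * Real.pi),
      ((1 + circleMap 0 r θ ^ 2) / (1 - circleMap 0 r θ ^ 2)).re) =
      (1 - r ^ 4) * ∫ θ in (0 : ℝ)..(2 * Real.pi), 1 / ‖1 - circleMap 0 r θ ^ 2‖ ^ 2 := by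
    rw [← intervalIntegral.integral_const_mul]
    apply intervalIntegral.integral_congr
    intro θ _
    show ((1 + circleMap 0 r θ ^ 2) / (1 - circleMap 0 r θ ^ 2)).re = _
    rw [re_kernel (by rw [hn]; exact hr1), hn]
  rw [Complex.smul_re, h4, h5, smul_eq_mul] at h3
  have hr4 : 0 < 1 - r ^ 4 := by
    have : r ^ 4 < 1 := pow_lt_one₀ hr.le hr1 (by norm_num)
    linarith
  rw [eq_div_iff hr4.ne']
  linear_combination h3

end TL

open TL

theorem taskL : TaskL := by
  intro Φ r B C hΦ hr hr1 hb m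
  have hn : ∀ θ : ℝ, ‖circleMap 0 r θ‖ = r := by
    intro θ
    rw [norm_circleMap_zero, abs_of_pos hr]
  have hd : DifferentiableOn ℂ Φ (closedBall 0 r) := hΦ.mono (closedBall_subset_ball hr1)
  have hp : HasFPowerSeriesOnBall Φ (cauchyPowerSeries Φ 0 r) 0 (ENNReal.ofReal r) := by
    have h := DifferentiableOn.hasFPowerSeriesOnBall (R := Real.toNNReal r) (c := 0) (f := Φ)
      (by rw [Real.coe_toNNReal r hr.le]; exact hd) (Real.toNNReal_pos.2 hr)
    rw [Real.coe_toNNReal r hr.le] at h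
    exact h
  have h1 := hp.factorial_smul 1 m
  have h2 : coeff m Φ = cauchyPowerSeries Φ 0 r m (fun _ => 1) := by
    unfold coeff
    rw [iteratedDeriv_eq_iteratedFDeriv, ← h1, nsmul_eq_mul]
    have : ((m.factorial : ℕ) : ℂ) ≠ 0 := by exact_mod_cast m.factorial_ne_zero
    field_simp
  have h3 : ‖coeff m Φ‖ ≤ ‖cauchyPowerSeries Φ 0 r m‖ := by
    rw [h2]
    refine ((cauchyPowerSeries Φ 0 r m).le_opNorm _).trans ?_
    simp
  have h4 := norm_cauchyPowerSeries_le Φ 0 r m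
  rw [abs_of_pos hr] at h4
  have hc1 : Continuous fun θ : ℝ => ‖Φ (circleMap 0 r θ)‖ := by
    apply Continuous.norm
    have := hd.continuousOn
    exact this.comp_continuous (continuous_circleMap 0 r) (fun θ => by
      simp [hn θ])
  have hc2 : Continuous fun θ : ℝ => 1 / ‖1 - circleMap 0 r θ ^ 2‖ ^ 2 := by
    apply Continuous.div continuous_const
    · exact ((continuous_const.sub ((continuous_circleMap 0 r).pow 2)).norm).pow 2
    · intro θ
      exact pow_ne_zero 2 (norm_ne_zero_iff.2 (one_sub_ne (by rw [hn]; exact hr1)))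
  have h5 : ∫ θ in (0 : ℝ)..(2 * Real.pi), ‖Φ (circleMap 0 r θ)‖ ≤
      ∫ θ in (0 : ℝ)..(2 * Real.pi), (B * (1 / ‖1 - circleMap 0 r θ ^ 2‖ ^ 2) + C) := by
    apply intervalIntegral.integral_mono_on (by positivity) (hc1.intervalIntegrable _ _)
    · exact ((continuous_const.mul hc2).add continuous_const).intervalIntegrable _ _
    · intro θ _
      have := hb (circleMap 0 r θ) (hn θ)
      rw [mul_one_div]
      exact this
  have h6 : (2 * Real.pi)⁻¹ * ∫ θ in (0 : ℝ)..(2 * Real.pi),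
      (B * (1 / ‖1 - circleMap 0 r θ ^ 2‖ ^ 2) + C) = B / (1 - r ^ 4) + C := by
    have hi1 : IntervalIntegrable (fun θ : ℝ => B * (1 / ‖1 - circleMap 0 r θ ^ 2‖ ^ 2))
        MeasureTheory.volume 0 (2 * Real.pi) := by
      apply Continuous.intervalIntegrable
      exact continuous_const.mul hc2
    have hi2 : IntervalIntegrable (fun _ : ℝ => C) MeasureTheory.volume 0 (2 * Real.pi) :=
      continuous_const.intervalIntegrable _ _
    rw [intervalIntegral.integral_add hi1 hi2, intervalIntegral.integral_const_mul,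
      intervalIntegral.integral_const, mul_add]
    have h7 := mean_one hr hr1
    have hpi : (2 * Real.pi) ≠ 0 := by positivity
    have e1 : (2 * Real.pi)⁻¹ * (B * ∫ θ in (0 : ℝ)..(2 * Real.pi),
        1 / ‖1 - circleMap 0 r θ ^ 2‖ ^ 2) = B * (1 / (1 - r ^ 4)) := by
      rw [← h7]
      ring
    rw [e1, smul_eq_mul, sub_zero, inv_mul_cancel_left₀ hpi, mul_one_div]
  have h8 : (2 * Real.pi)⁻¹ * ∫ θ in (0 : ℝ)..(2 * Real.pi), ‖Φ (circleMap 0 r θ)‖ ≤
      B / (1 - r ^ 4) + C := by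
    rw [← h6]
    exact mul_le_mul_of_nonneg_left h5 (by positivity)
  have h9 : ‖coeff m Φ‖ ≤ (B / (1 - r ^ 4) + C) * r⁻¹ ^ m :=
    (h3.trans h4).trans (mul_le_mul_of_nonneg_right h8 (by positivity))
  calc ‖coeff m Φ‖ * r ^ m ≤ ((B / (1 - r ^ 4) + C) * r⁻¹ ^ m) * r ^ m :=
        mul_le_mul_of_nonneg_right h9 (by positivity)
    _ = B / (1 - r ^ 4) + C := by
        rw [mul_assoc, ← mul_pow, inv_mul_cancel₀ hr.ne', one_pow, mul_one]

end Pool.Agent.H33R3.Bom
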